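import Pool.Agent.H76.MXT.Stmts

/-!
Row PCS of the board `mxt`: a proper crossing is symmetric.
-/

set_option autoImplicit false

namespace Pool.MXT

theorem pcs_thm : S_PCS := by
  rintro X Y p ⟨Φ, U, hU, hp, h0, h⟩
  refine ⟨Φ.trans (Homeomorph.prodComm ℝ ℝ), U, hU, hp, ?_, ?_⟩
  · show Prod.swap (Φ p) = (0, 0)
    rw [h0]; rfl
  · intro q hq
    exact ⟨(h q hq).2, (h q hq).1⟩

end Pool.MXT
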